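import Pool.Agent.GT.AllE
import Pool.Agent.GT.GreenTao

set_option autoImplicit false

/-!
# MP_ba5221_nt: one fibre decides

Let `E` be a nonisotrivial elliptic curve over `ℚ(T)` with full rational 2-torsion all of whose places
of bad reduction are rational (there may be any number of them), and let `t₀` be a rational number at
which the fibre of `E` is nonsingular. There is a finite set `S` of primes such that the following holds
for every squarefree integer `k` with a prime factor outside `S`: if the 2-Selmer group of the fibre at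
`t₀` of the quadratic twist of `E` by `k` is as small as possible, then this twist has rank `0` over
`ℚ(T)` and infinitely many fibres of rank `0`. The definitions `gen`, `fib`, `genC`, `rk`, `FullTwo`,
`IsPlace`, `GoodAt`, `badPlaces`, `Nonisotrivial`, `nonJumping` are in `Pool.Agent.Helper32_NJ.Defs`,
`Roots` is in `Pool.Agent.Helper32_NJ.Stmts`, `RatPl` (rational place) and `twist` are in
`Pool.Agent.GT.DefsD`, `Cv` and `TrivialSelmer` in `Pool.Agent.GT.DefsE`.
-/

namespace Pool.Agent.Results.MP_ba5221_nt.OneFibreDecides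

open Polynomial Pool.Agent.NJ Pool.Agent.GT.D Pool.Agent.GT.OF

theorem result : ∀ E : WeierstrassCurve ℚ[X], E.Δ ≠ 0 → Nonisotrivial E →
    FullTwo (gen E) → (∀ A ∈ badPlaces E, RatPl A) → ∀ t₀ : ℚ, (fib E t₀).Δ ≠ 0 →
    ∃ S : Finset ℕ, ∀ k : ℤ, Squarefree k → (∃ r : ℕ, r.Prime ∧ (r : ℤ) ∣ k ∧ r ∉ S) →
      (∀ e : Fin 3 → ℚ, Roots (fib (twist E k) t₀) (e 0) (e 1) (e 2) → TrivialSelmer e) →
        rk (gen (twist E k)) = 0 ∧ (nonJumping (twist E k)).Infinite :=
  Pool.Agent.GT.OF.main_all Pool.Agent.GT.greenTao

end Pool.Agent.Results.MP_ba5221_nt.OneFibreDecides
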