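import Pool.Agent.G02.MainAll

set_option autoImplicit false

/-!
# MP_ba5221_nt: fibres without a rank jump, one rational point of order two and three bad places

Every nonisotrivial elliptic curve over `ℚ(T)` with exactly one rational point of order two and
with at most three places of bad reduction, all of them rational, has rank `0` or `1` over `ℚ(T)`,
and infinitely many of its fibres over rational numbers have this same rank.  Rank one occurs in
this class (the example is `y² = x³ - T x² + T x`).  The definitions `gen`, `fib`, `genC`, `rk`,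
`IsPlace`, `GoodAt`, `badPlaces`, `Nonisotrivial`, `nonJumping` are in
`Pool.Agent.Helper32_NJ.Defs`, `OneTwo` is in `Pool.Agent.G02.DefsM`, `RatPl` (rational place) in
`Pool.Agent.GT.DefsD`.
-/

namespace Pool.Agent.Results.MP_ba5221_nt.OneTwoTorsionPoint

open Polynomial Pool.Agent.NJ Pool.Agent.G02 Pool.Agent.GT.D

theorem result :
    (∀ E : WeierstrassCurve ℚ[X], E.Δ ≠ 0 → Nonisotrivial E → OneTwo (gen E) →
      (∀ A ∈ badPlaces E, RatPl A) → (badPlaces E).encard ≤ 3 →
        (rk (gen E) = 0 ∨ rk (gen E) = 1) ∧ (nonJumping E).Infinite) ∧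
    ∃ E : WeierstrassCurve ℚ[X], E.Δ ≠ 0 ∧ Nonisotrivial E ∧ OneTwo (gen E) ∧
      (∀ A ∈ badPlaces E, RatPl A) ∧ (badPlaces E).encard ≤ 3 ∧ rk (gen E) = 1 :=
  Pool.Agent.G02.main_final

end Pool.Agent.Results.MP_ba5221_nt.OneTwoTorsionPoint
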