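import Pool.Agent.GT.AllD
import Pool.Agent.GT.GreenTao

set_option autoImplicit false

/-!
# MP_ba5221_nt: fibres without a rank jump, for full rational 2-torsion and rational bad places

Let `E` be a nonisotrivial elliptic curve over `ℚ(T)` with full rational 2-torsion all of whose places
of bad reduction are rational (there may be any number of them). For all large primes `r` in a residue
class the quadratic twist of `E` by `c r` has rank `0` over `ℚ(T)`, and infinitely many of its fibres
over rational numbers have rank `0`. The definitions `gen`, `fib`, `genC`, `rk`, `FullTwo`, `IsPlace`,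
`GoodAt`, `badPlaces`, `Nonisotrivial`, `nonJumping` are in `Pool.Agent.Helper32_NJ.Defs`, those of
`RatPl` (rational place) and `twist` in `Pool.Agent.GT.DefsD`.
-/

namespace Pool.Agent.Results.MP_ba5221_nt.RationalBadPlaces

open Polynomial Pool.Agent.NJ Pool.Agent.GT.D

theorem result : ∀ E : WeierstrassCurve ℚ[X], E.Δ ≠ 0 → Nonisotrivial E →
    FullTwo (gen E) → (∀ A ∈ badPlaces E, RatPl A) →
    ∃ (c : ℤ) (m ρ n₀ : ℕ), c ≠ 0 ∧ 0 < m ∧ ρ.Coprime m ∧ ∀ r : ℕ, r.Prime → n₀ ≤ r →
      r ≡ ρ [MOD m] →
        rk (gen (twist E (c * r))) = 0 ∧ (nonJumping (twist E (c * r))).Infinite :=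
  Pool.Agent.GT.D.main_all Pool.Agent.GT.greenTao

end Pool.Agent.Results.MP_ba5221_nt.RationalBadPlaces
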