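import Pool.Agent.Helper32_NJ.All
import Pool.Agent.Helper4_NJ.Tws

set_option autoImplicit false

/-!
# MP_ba5221_nt: fibres without a rank jump, for full rational 2-torsion and three bad places

Every nonisotrivial elliptic curve over `ℚ(T)` with full rational 2-torsion and at most three
places of bad reduction has rank `0` over `ℚ(T)`, and infinitely many of its fibres over
rational numbers have rank `0`. The definitions `gen`, `fib`, `genC`, `rk`, `FullTwo`, `IsPlace`,
`GoodAt`, `badPlaces`, `Nonisotrivial`, `nonJumping` are in `Pool.Agent.Helper32_NJ.Defs`.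
-/

namespace Pool.Agent.Results.MP_ba5221_nt.ThreeBadPlaces

open Polynomial Pool.Agent.NJ

theorem result : ∀ E : WeierstrassCurve ℚ[X], E.Δ ≠ 0 → Nonisotrivial E →
    FullTwo (gen E) → (badPlaces E).encard ≤ 3 →
    rk (gen E) = 0 ∧ (nonJumping E).Infinite :=
  main_all H4.tws

end Pool.Agent.Results.MP_ba5221_nt.ThreeBadPlaces
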